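import Pool.Agent.H54.PM.Targets

/-!
MP_def5ca_co, board pmf, row DBG: gluing of a cube along two words which differ at the places
`0` and `j`.
-/

set_option autoImplicit false

open scoped symmDiff

namespace Pool.Agent.H74.PMF

open Pool.Agent.H54.PM

/-- symmetric moves in `S` -/
def sv {p : ℕ} (S : Finset (Wd p)) (g h : Wd p) : Prop := g ∈ S ∧ h ∈ S ∧ ∃ i, ag i g h

theorem sv_symm {p : ℕ} (S : Finset (Wd p)) : Std.Symm (sv S) :=
  ⟨fun _ _ ⟨hg, hh, i, hi⟩ => ⟨hh, hg, i, fun t ht => (hi t ht).symm⟩⟩

theorem rtg_symm {p : ℕ} {S : Finset (Wd p)} {g h : Wd p}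
    (H : Relation.ReflTransGen (sv S) g h) : Relation.ReflTransGen (sv S) h g := by
  induction H with
  | refl => exact Relation.ReflTransGen.refl
  | tail _ h2 ih => exact Relation.ReflTransGen.head ((sv_symm S).symm _ _ h2) ih

/-- row DBG -/
theorem pf_DBG : T_DBG := by
  classical
  intro p _ W f f' j M hp hG hf hf' hj h0 hjj hoff hmix hM hpone
  set b : Wd p := fun t => if t = 0 ∨ t = j then f' t else M with hb
  set Q : Finset (Wd p) := cube f b with hQd
  have hQ : ∀ h : Wd p, h ∈ Q ↔ ∀ t, h t = f t ∨ h t = b t := by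
    intro h
    rw [hQd, cube, Fintype.mem_piFinset]
    simp
  have hb0 : b 0 = f' 0 := by rw [hb]; simp
  have hbj : b j = f' j := by rw [hb]; simp
  have hbt : ∀ t, t ≠ 0 → t ≠ j → b t = M := by
    intro t ht0 htj
    rw [hb]
    simp [ht0, htj]
  have hint : W ∩ Q = {f, f'} := by
    ext h
    rw [Finset.mem_inter, hQ, Finset.mem_insert, Finset.mem_singleton]
    constructor
    · rintro ⟨hW, hh⟩
      have hoth : ∀ t, t ≠ 0 → t ≠ j → h t = f t := by
        intro t ht0 htj
        rcases hh t with h1 | h1
        · exact h1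
        · rw [hbt t ht0 htj] at h1
          exact absurd h1 (hM h hW t).ne
      have h2 := hh 0
      have h3 := hh j
      rw [hb0] at h2
      rw [hbj] at h3
      have h4 := hmix h hW
      rcases h2 with h2 | h2 <;> rcases h3 with h3 | h3
      · left
        funext t
        by_cases ht0 : t = 0
        · rw [ht0, h2]
        · by_cases htj : t = j
          · rw [htj, h3]
          · exact hoth t ht0 htj
      · exact absurd ⟨h2, h3⟩ h4.1
      · exact absurd ⟨h2, h3⟩ h4.2
      · right
        funext t
        by_cases ht0 : t = 0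
        · rw [ht0, h2]
        · by_cases htj : t = j
          · rw [htj, h3]
          · rw [hoth t ht0 htj, hoff t ht0 htj]
    · rintro (rfl | rfl)
      · exact ⟨hf, fun t => Or.inl rfl⟩
      · refine ⟨hf', fun t => ?_⟩
        by_cases ht0 : t = 0
        · right
          rw [ht0, hb0]
        · by_cases htj : t = j
          · right
            rw [htj, hbj]
          · left
            exact (hoff t ht0 htj).symm
  have hfI : f ∈ W ∩ Q := by rw [hint]; simp
  have hf'I : f' ∈ W ∩ Q := by rw [hint]; simp
  -- the general case distinction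
  have hgen : ∀ I : Fin p → Prop, ∀ g ∈ W, ∀ h ∈ Q, (∀ t, ¬ I t → g t = h t) →
      ∃ k ∈ W ∩ Q, ∀ t, ¬ I t → g t = k t := by
    intro I g hg h hh hag
    rw [hQ] at hh
    have hoth : ∀ t, t ≠ 0 → t ≠ j → ¬ I t → g t = f t := by
      intro t ht0 htj hI
      rw [hag t hI]
      rcases hh t with h1 | h1
      · exact h1
      · rw [hbt t ht0 htj, ← hag t hI] at h1
        exact absurd h1 (hM g hg t).ne
    have h2 := hh 0
    have h3 := hh j
    rw [hb0] at h2
    rw [hbj] at h3
    -- a word with the right letters at `0` and `j`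
    have hkf : (¬ I 0 → g 0 = f 0) → (¬ I j → g j = f j) → ∀ t, ¬ I t → g t = f t := by
      intro e1 e2 t ht
      by_cases ht0 : t = 0
      · subst ht0
        exact e1 ht
      · by_cases htj : t = j
        · subst htj
          exact e2 ht
        · exact hoth t ht0 htj ht
    have hkf' : (¬ I 0 → g 0 = f' 0) → (¬ I j → g j = f' j) → ∀ t, ¬ I t → g t = f' t := by
      intro e1 e2 t ht
      by_cases ht0 : t = 0
      · subst ht0
        exact e1 ht
      · by_cases htj : t = j
        · subst htj
          exact e2 ht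
        · rw [← hoff t ht0 htj]
          exact hoth t ht0 htj ht
    by_cases hI0 : I 0
    · by_cases hIj : I j
      · exact ⟨f, hfI, hkf (fun h => absurd hI0 h) (fun h => absurd hIj h)⟩
      · rcases h3 with h3 | h3
        · exact ⟨f, hfI, hkf (fun h => absurd hI0 h) (fun _ => (hag j hIj).trans h3)⟩
        · exact ⟨f', hf'I, hkf' (fun h => absurd hI0 h) (fun _ => (hag j hIj).trans h3)⟩
    · by_cases hIj : I j
      · rcases h2 with h2 | h2
        · exact ⟨f, hfI, hkf (fun _ => (hag 0 hI0).trans h2) (fun h => absurd hIj h)⟩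
        · exact ⟨f', hf'I, hkf' (fun _ => (hag 0 hI0).trans h2) (fun h => absurd hIj h)⟩
      · have h4 := hmix g hg
        rw [← hag 0 hI0] at h2
        rw [← hag j hIj] at h3
        rcases h2 with h2 | h2 <;> rcases h3 with h3 | h3
        · exact ⟨f, hfI, hkf (fun _ => h2) (fun _ => h3)⟩
        · exact absurd ⟨h2, h3⟩ h4.1
        · exact absurd ⟨h2, h3⟩ h4.2
        · exact ⟨f', hf'I, hkf' (fun _ => h2) (fun _ => h3)⟩
  -- connectivity
  obtain ⟨t₀, ht₀0, ht₀j⟩ : ∃ t : Fin p, t ≠ 0 ∧ t ≠ j := by
    by_contra hcon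
    push Not at hcon
    have h1 : (Finset.univ : Finset (Fin p)) ⊆ {0, j} := by
      intro t _
      rw [Finset.mem_insert, Finset.mem_singleton]
      by_cases ht : t = 0
      · exact Or.inl ht
      · exact Or.inr (hcon t ht)
    have h2 := Finset.card_le_card h1
    have h3 : ({0, j} : Finset (Fin p)).card ≤ 2 := Finset.card_le_two
    rw [Finset.card_univ, Fintype.card_fin] at h2
    omega
  have hnW : ∀ h : Wd p, (∃ t, h t = M) → h ∉ W := by
    rintro h ⟨t, ht⟩ hW
    exact absurd ht (hM h hW t).ne
  set S : Finset (Wd p) := Q \ W with hS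
  set c : Wd p := fun t => if t = 0 ∨ t = j then f t else M with hc
  have hbase : ∀ h ∈ S, Relation.ReflTransGen (sv S) h c := by
    intro h hh
    have hhQ := (Finset.mem_sdiff.mp hh).1
    rw [hQ] at hhQ
    -- first stage
    have hA : ∀ A : Finset (Fin p), 0 ∉ A → j ∉ A →
        (fun t => if t ∈ A then M else h t) ∈ S := by
      intro A hA0 hAj
      rcases A.eq_empty_or_nonempty with hE | ⟨a, ha⟩
      · rw [hE]
        simpa using hh
      · rw [hS, Finset.mem_sdiff]
        refine ⟨?_, hnW _ ⟨a, if_pos ha⟩⟩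
        rw [hQ]
        intro t
        by_cases ht : t ∈ A
        · right
          rw [hbt t (fun e => hA0 (e ▸ ht)) (fun e => hAj (e ▸ ht))]
          exact if_pos ht
        · simp only [if_neg ht]
          exact hhQ t
    have hstage : ∀ A : Finset (Fin p), 0 ∉ A → j ∉ A →
        Relation.ReflTransGen (sv S) h (fun t => if t ∈ A then M else h t) := by
      intro A
      induction A using Finset.induction_on with
      | empty =>
        intro _ _
        simp only [Finset.notMem_empty, if_false]
        exact Relation.ReflTransGen.refl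
      | insert a A ha ih =>
        intro h1 h2
        have h3 : 0 ∉ A := fun h => h1 (Finset.mem_insert_of_mem h)
        have h4 : j ∉ A := fun h => h2 (Finset.mem_insert_of_mem h)
        refine (ih h3 h4).tail ⟨hA A h3 h4, hA _ h1 h2, a, ?_⟩
        intro t ht
        simp only [Finset.mem_insert, ht, false_or]
    set A : Finset (Fin p) := Finset.univ \ {0, j} with hAd
    have hA0 : 0 ∉ A := by rw [hAd]; simp
    have hAj : j ∉ A := by rw [hAd]; simp
    have hmemA : ∀ t, t ∈ A ↔ t ≠ 0 ∧ t ≠ j := by
      intro t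
      rw [hAd]
      simp
    have s1 := hstage A hA0 hAj
    have e1 := hA A hA0 hAj
    -- second stage
    set k1 : Wd p := fun t => if t = 0 then f 0 else if t = j then h j else M with hk1
    have hk1S : k1 ∈ S := by
      rw [hS, Finset.mem_sdiff]
      refine ⟨?_, hnW _ ⟨t₀, by rw [hk1]; simp [ht₀0, ht₀j]⟩⟩
      rw [hQ]
      intro t
      by_cases ht0 : t = 0
      · left
        rw [hk1, ht0]
        simp
      · by_cases htj : t = j
        · have : k1 t = h j := by rw [hk1]; simp [htj, hj]
          rw [this, htj]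
          exact hhQ j
        · right
          rw [hbt t ht0 htj, hk1]
          simp [ht0, htj]
    have hcS : c ∈ S := by
      rw [hS, Finset.mem_sdiff]
      refine ⟨?_, hnW _ ⟨t₀, by rw [hc]; simp [ht₀0, ht₀j]⟩⟩
      rw [hQ]
      intro t
      by_cases ht : t = 0 ∨ t = j
      · left
        rw [hc]
        exact if_pos ht
      · right
        rw [not_or] at ht
        rw [hbt t ht.1 ht.2, hc]
        simp [ht.1, ht.2]
    refine (s1.tail ⟨e1, hk1S, 0, ?_⟩).tail ⟨hk1S, hcS, j, ?_⟩
    · intro t ht
      by_cases htj : t = j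
      · have h5 : j ∉ A := hAj
        simp only [hk1, htj, if_neg h5, if_neg hj, if_true]
      · have h5 : t ∈ A := (hmemA t).mpr ⟨ht, htj⟩
        simp only [hk1, if_pos h5, if_neg ht, if_neg htj]
    · intro t ht
      by_cases ht0 : t = 0
      · simp only [hk1, hc, ht0, true_or, if_true]
      · simp only [hk1, hc, if_neg ht0, ht0, ht, or_self, if_false]
  refine ⟨⟨⟨f, hfI⟩, ?_, ?_, ?_, hpone, ?_⟩, hint⟩
  · -- lines
    intro i g hg h hh hag
    exact hgen (fun t => t = i) g hg h hh hag
  · -- one
    intro i k hk k' hk' hag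
    rw [hint, Finset.mem_insert, Finset.mem_singleton] at hk hk'
    have hff : ¬ ag i f f' := by
      intro hff
      by_cases hi : i = 0
      · exact hjj (hff j (by rw [hi]; exact hj))
      · exact h0 (hff 0 (Ne.symm hi))
    rcases hk with rfl | rfl <;> rcases hk' with rfl | rfl
    · rfl
    · exact absurd hag hff
    · exact absurd (fun t ht => (hag t ht).symm) hff
    · rfl
  · -- planes
    intro i g hg h hh hag
    obtain ⟨k, hk, hk2⟩ := hgen (fun t => t = i ∨ t = i + 1) g hg h hh (by
      intro t ht
      rw [not_or] at ht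
      exact hag t ht.1 ht.2)
    refine ⟨k, hk, fun t h1 h2 => hk2 t ?_⟩
    rw [not_or]
    exact ⟨h1, h2⟩
  · intro g hg h hh
    have h1 := (hbase g hg).trans (rtg_symm (hbase h hh))
    exact Relation.ReflTransGen.mono (r := sv S) (p := mv S)
      (fun a b hab => ⟨hab.2.1, hab.2.2⟩) _ _ h1

end Pool.Agent.H74.PMF
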